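import Pool.Agent.H3RD.W830.RD.Stm

/-!
# The union bound for patterns
-/

set_option autoImplicit false

namespace Pool.Agent.W459.RD.UB

open Finset Pool.Agent.W830.RD
open scoped Classical

/-- The pair of images, ordered. -/
noncomputable def im {r n : ℕ} (F : Fin r → Fin n) (e : Fin r × Fin r) : Fin n × Fin n :=
  if F e.1 < F e.2 then (F e.1, F e.2) else (F e.2, F e.1)

theorem im_inj {r n : ℕ} {F : Fin r → Fin n} (hF : Function.Injective F) {e f : Fin r × Fin r}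
    (he : e.1 < e.2) (hf : f.1 < f.2) (h : im F e = im F f) : e = f := by
  obtain ⟨a, b⟩ := e
  obtain ⟨c, d⟩ := f
  simp only at he hf
  unfold im at h
  simp only at h
  split_ifs at h with h1 h2 h2
  · simp only [Prod.mk.injEq] at h
    rw [Prod.mk.injEq]
    exact ⟨hF h.1, hF h.2⟩
  · simp only [Prod.mk.injEq] at h
    have h3 := hF h.1
    have h4 := hF h.2
    subst h3 h4
    exact absurd he (not_lt.2 hf.le)
  · simp only [Prod.mk.injEq] at h
    have h3 := hF h.1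
    have h4 := hF h.2
    subst h3 h4
    exact absurd he (not_lt.2 hf.le)
  · simp only [Prod.mk.injEq] at h
    rw [Prod.mk.injEq]
    exact ⟨hF h.2, hF h.1⟩

theorem im_mem {r n : ℕ} {F : Fin r → Fin n} (hF : Function.Injective F) {e : Fin r × Fin r}
    (he : e.1 < e.2) : im F e ∈ Om n := by
  unfold im Om
  rw [mem_filter]
  refine ⟨mem_univ _, ?_⟩
  split_ifs with h
  · exact h
  · have h1 : F e.1 ≠ F e.2 := fun h2 => he.ne (hF h2)
    exact lt_of_le_of_ne (not_lt.1 h) (Ne.symm h1)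

/-- One placement of one pattern. -/
theorem single (hB : S_PBAS) (hI : S_PIND) {p : ℝ} {n r M : ℕ} (hp : 0 < p) (hp1 : p < 1)
    {π : Finset (Fin r × Fin r)} (hM : M ≤ π.card) (hπ : ∀ e ∈ π, e.1 < e.2)
    {F : Fin r → Fin n} (hF : Function.Injective F) :
    Pr p n (fun E => ∀ e ∈ π, (F e.1, F e.2) ∉ E ∧ (F e.2, F e.1) ∉ E) ≤ (1 - p) ^ M := by
  have h1 : π.image (im F) ⊆ Om n := by
    intro x hx
    obtain ⟨e, he, rfl⟩ := mem_image.1 hx
    exact im_mem hF (hπ e he)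
  have h2 : (π.image (im F)).card = π.card := by
    refine card_image_of_injOn fun e he f hf hef => ?_
    exact im_inj hF (hπ e he) (hπ f hf) hef
  have h3 := (hI p n hp hp1).2.2 _ h1
  have h4 := (hB p n hp hp1).2.2.1
    (fun E => ∀ e ∈ π, (F e.1, F e.2) ∉ E ∧ (F e.2, F e.1) ∉ E)
    (fun E => E ∩ π.image (im F) = ∅) (by
      intro E _ hE
      rw [eq_empty_iff_forall_notMem]
      intro x hx
      obtain ⟨hx1, hx2⟩ := mem_inter.1 hx
      obtain ⟨e, he, rfl⟩ := mem_image.1 hx2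
      obtain ⟨g1, g2⟩ := hE e he
      unfold im at hx1
      split_ifs at hx1 with h
      · exact g1 hx1
      · exact g2 hx1)
  rw [h3, h2] at h4
  exact h4.trans (pow_le_pow_of_le_one (by linarith) (by linarith) hM)

/-- The placements inside a window. -/
noncomputable def Wd (n m r v : ℕ) : Finset (Fin r → Fin n) :=
  (Fintype.piFinset fun _ : Fin r =>
    (univ.filter fun x : Fin n => v ≤ (x : ℕ) ∧ (x : ℕ) < v + m)).filter Function.Injective

theorem card_Wd (n m r v : ℕ) : (Wd n m r v).card ≤ m ^ r := by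
  unfold Wd
  refine (card_filter_le _ _).trans ?_
  rw [Fintype.card_piFinset]
  simp only [prod_const, card_univ, Fintype.card_fin]
  refine Nat.pow_le_pow_left ?_ r
  have h1 : ((univ.filter fun x : Fin n => v ≤ (x : ℕ) ∧ (x : ℕ) < v + m).image
      (fun x : Fin n => (x : ℕ))).card ≤ (Finset.Ico v (v + m)).card := by
    refine card_le_card fun y hy => ?_
    obtain ⟨x, hx, rfl⟩ := mem_image.1 hy
    exact mem_Ico.2 (mem_filter.1 hx).2
  rw [card_image_of_injective _ Fin.val_injective, Nat.card_Ico] at h1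
  omega

theorem main (hB : S_PBAS) (hI : S_PIND) : S_UB := by
  intro p n m r M Pa hp hp1 hM hPa
  have hq : (0 : ℝ) ≤ (1 - p) ^ M := pow_nonneg (by linarith) M
  obtain ⟨-, -, hmono, -, -, hun⟩ := hB p n hp hp1
  have h1 := hmono (fun E => ∃ π ∈ Pa, Occ m r π E)
    (fun E => ∃ v ∈ range n, ∃ π ∈ Pa, ∃ F ∈ Wd n m r v,
      ∀ e ∈ π, (F e.1, F e.2) ∉ E ∧ (F e.2, F e.1) ∉ E) (by
      rintro E - ⟨π, hπ, v, F, hF, hw, hE⟩
      obtain ⟨hc, -⟩ := hPa π hπ
      have hne : π.Nonempty := card_pos.1 (by omega)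
      obtain ⟨e, he⟩ := hne
      refine ⟨v, mem_range.2 ?_, π, hπ, F, ?_, hE⟩
      · exact lt_of_le_of_lt (hw e.1).1 (F e.1).2
      · unfold Wd
        rw [mem_filter, Fintype.mem_piFinset]
        exact ⟨fun i => mem_filter.2 ⟨mem_univ _, hw i⟩, hF⟩)
  refine h1.trans ?_
  refine (hun ℕ (range n) (fun v E => ∃ π ∈ Pa, ∃ F ∈ Wd n m r v,
      ∀ e ∈ π, (F e.1, F e.2) ∉ E ∧ (F e.2, F e.1) ∉ E)).trans ?_
  have h2 : ∀ v ∈ range n, Pr p n (fun E => ∃ π ∈ Pa, ∃ F ∈ Wd n m r v,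
      ∀ e ∈ π, (F e.1, F e.2) ∉ E ∧ (F e.2, F e.1) ∉ E) ≤
      Pa.card * ((m : ℝ) ^ r * (1 - p) ^ M) := by
    intro v _
    refine (hun _ Pa (fun π E => ∃ F ∈ Wd n m r v,
      ∀ e ∈ π, (F e.1, F e.2) ∉ E ∧ (F e.2, F e.1) ∉ E)).trans ?_
    have h3 : ∀ π ∈ Pa, Pr p n (fun E => ∃ F ∈ Wd n m r v,
        ∀ e ∈ π, (F e.1, F e.2) ∉ E ∧ (F e.2, F e.1) ∉ E) ≤ (m : ℝ) ^ r * (1 - p) ^ M := by
      intro π hπ
      refine (hun _ (Wd n m r v) (fun F E =>
        ∀ e ∈ π, (F e.1, F e.2) ∉ E ∧ (F e.2, F e.1) ∉ E)).trans ?_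
      have h4 : ∀ F ∈ Wd n m r v, Pr p n (fun E =>
          ∀ e ∈ π, (F e.1, F e.2) ∉ E ∧ (F e.2, F e.1) ∉ E) ≤ (1 - p) ^ M := by
        intro F hF
        exact single hB hI hp hp1 (hPa π hπ).1 (hPa π hπ).2 (mem_filter.1 hF).2
      refine (sum_le_sum h4).trans ?_
      rw [sum_const, nsmul_eq_mul]
      refine mul_le_mul_of_nonneg_right ?_ hq
      exact_mod_cast card_Wd n m r v
    refine (sum_le_sum h3).trans ?_
    rw [sum_const, nsmul_eq_mul]
  refine (sum_le_sum h2).trans (le_of_eq ?_)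
  rw [sum_const, nsmul_eq_mul, card_range]
  ring

end Pool.Agent.W459.RD.UB
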